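import Pool.Agent.H73.GWT.Stmts

/-! Row FDC of board gwt (MP_213ba5_lc): full decoding. -/

set_option autoImplicit false

open Classical

namespace GWT

section code

variable {ι G V : Type*} [Fintype ι] [Group G] [MulAction G V] (C : Code ι G V)

/-- the two points of the window, seen from `g o` in the direction of `g y o` -/
theorem FDC_aux (h1 : IN1Stmt C) (m v y g : G) (s : ι) (hg : g = m * C.c s ^ 4 * v)
    (b1 : Bt C.T C.o (m • C.c s • C.o) (g • C.o))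
    (b2 : Bt C.T C.o (m • (C.c s) ^ 2 • C.o) (g • C.o))
    (e : C.d C.o (m • (C.c s) ^ 2 • C.o) = C.d C.o (m • C.c s • C.o) + C.Λ)
    (hc : C.d C.o (cen C.tree C.o (g • C.o) ((g * y) • C.o)) ≤ C.d C.o (m • C.c s • C.o)) :
    C.d C.o (v • C.o) ≤ C.d (g • C.o) (m • C.c s • C.o) + 3 * C.Λ ∧
    Bt C.T C.o (v⁻¹ • (C.c s ^ 3)⁻¹ • C.o) (y • C.o) ∧
    C.d C.o (v⁻¹ • (C.c s ^ 3)⁻¹ • C.o) = C.d (g • C.o) (m • C.c s • C.o) ∧
    Bt C.T C.o (v⁻¹ • (C.c s ^ 2)⁻¹ • C.o) (y • C.o) ∧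
    C.d C.o (v⁻¹ • (C.c s ^ 2)⁻¹ • C.o) + C.Λ = C.d (g • C.o) (m • C.c s • C.o) := by
  have q1 : g • (v⁻¹ • (C.c s ^ 3)⁻¹ • C.o) = m • C.c s • C.o := by
    rw [hg]
    simp only [smul_smul]
    congr 1
    group
  have q2 : g • (v⁻¹ • (C.c s ^ 2)⁻¹ • C.o) = m • (C.c s) ^ 2 • C.o := by
    rw [hg]
    simp only [smul_smul]
    congr 1
    group
  have qy : g • (y • C.o) = (g * y) • C.o := by rw [smul_smul]
  have d1 : C.d C.o (v⁻¹ • (C.c s ^ 3)⁻¹ • C.o) = C.d (g • C.o) (m • C.c s • C.o) := by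
    rw [← q1]
    exact (C.ds g _ _).symm
  have d2 : C.d C.o (v⁻¹ • (C.c s ^ 2)⁻¹ • C.o) = C.d (g • C.o) (m • (C.c s) ^ 2 • C.o) := by
    rw [← q2]
    exact (C.ds g _ _).symm
  refine ⟨?_, ?_, d1, ?_, ?_⟩
  · have t1 := dtri C.tree (m • (C.c s) ^ 4 • C.o) (m • C.c s • C.o) (g • C.o)
    have t2 : C.T.dist (m • (C.c s) ^ 4 • C.o) (g • C.o) = C.T.dist C.o (v • C.o) := by
      rw [← C.ds (m * C.c s ^ 4) C.o (v • C.o), hg]
      simp only [smul_smul]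
    have t3 : C.T.dist (m • (C.c s) ^ 4 • C.o) (m • C.c s • C.o) = 3 * C.Λ := by
      rw [C.ds]
      have hx : (C.c s) ^ 4 • C.o = C.c s • ((C.c s) ^ 3 • C.o) := by
        simp only [smul_smul]
        congr 1
        group
      rw [hx, C.ds, dcomm]
      exact h1.2.2.2 s
    have t4 := dcomm (T := C.T) (m • C.c s • C.o) (g • C.o)
    show C.T.dist C.o (v • C.o) ≤ C.T.dist (g • C.o) (m • C.c s • C.o) + 3 * C.Λ
    omega
  · have h := CEN2 C.tree b1 hc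
    rw [← q1, ← qy] at h
    exact (C.bs g).mp h
  · have h := CEN2 C.tree b2 (by
      show C.d C.o (cen C.tree C.o (g • C.o) ((g * y) • C.o)) ≤ C.d C.o (m • (C.c s) ^ 2 • C.o)
      omega)
    rw [← q2, ← qy] at h
    exact (C.bs g).mp h
  · rw [d2]
    unfold Bt at b1 b2
    have t4 := dcomm (T := C.T) (m • C.c s • C.o) (g • C.o)
    have t5 := dcomm (T := C.T) (m • (C.c s) ^ 2 • C.o) (g • C.o)
    have e' : C.T.dist C.o (m • (C.c s) ^ 2 • C.o) = C.T.dist C.o (m • C.c s • C.o) + C.Λ := e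
    show C.T.dist (g • C.o) (m • (C.c s) ^ 2 • C.o) + C.Λ = C.T.dist (g • C.o) (m • C.c s • C.o)
    omega

/-- **FDC** -/
theorem FDC (h1 : IN1Stmt C) : FDCStmt C := by
  intro m m' v y g g' s t hg hg' b1 b2 e hc b1' b2' e' hc' hoff
  obtain ⟨a0, a1, a2, a3, a4⟩ := FDC_aux C h1 m v y g s hg b1 b2 e hc
  obtain ⟨a0', a1', a2', a3', a4'⟩ := FDC_aux C h1 m' v y g' t hg' b1' b2' e' hc'
  have hD : C.d (g • C.o) (m • C.c s • C.o) = C.d (g' • C.o) (m' • C.c t • C.o) := by omega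
  have u1 := UNQ C.tree a1 a1' (by
    show C.d C.o (v⁻¹ • (C.c s ^ 3)⁻¹ • C.o) = C.d C.o (v⁻¹ • (C.c t ^ 3)⁻¹ • C.o)
    omega)
  have u2 := UNQ C.tree a3 a3' (by
    show C.d C.o (v⁻¹ • (C.c s ^ 2)⁻¹ • C.o) = C.d C.o (v⁻¹ • (C.c t ^ 2)⁻¹ • C.o)
    omega)
  have w1 : (C.c s ^ 3)⁻¹ • C.o = (C.c t ^ 3)⁻¹ • C.o := smul_left_cancel _ u1
  have w2 : (C.c s ^ 2)⁻¹ • C.o = (C.c t ^ 2)⁻¹ • C.o := smul_left_cancel _ u2
  refine C.p3 s t (C.c t ^ 3 * (C.c s ^ 3)⁻¹) ?_ ?_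
  · rw [mul_smul, w1, smul_inv_smul]
  · have k1 : (C.c t ^ 3 * (C.c s ^ 3)⁻¹) • C.c s • C.o = C.c t ^ 3 • (C.c s ^ 2)⁻¹ • C.o := by
      simp only [smul_smul]
      congr 1
      group
    rw [k1, w2]
    simp only [smul_smul]
    congr 1
    group

end code

end GWT
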