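import Pool.Agent.H40.GWT.RW2

/-! Row RW1 of board gwt (MP_213ba5_lc): linear progress of random words. -/

set_option autoImplicit false

open Classical

namespace GWT

variable {ι G V : Type*} [Fintype ι] [Group G] [MulAction G V] (C : Code ι G V)

/-- **RW1** -/
theorem RW1 (S : Type*) [Fintype S] (h1 : RWBStmt C S) (h2 : PV1Stmt C) : RW1Stmt C S := by
  intro e wd k₀ hk hl he
  have hM : (32 : ℝ) ≤ C.M := by exact_mod_cast C.M_big
  have hM0 : (0 : ℝ) < (C.M : ℝ) := by linarith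
  have hM4 : (0 : ℝ) < (C.M : ℝ) ^ 4 := by positivity
  have hcard : ((C.M : ℝ)) ^ 4 ≤ (Fintype.card S : ℝ) ^ k₀ := by
    exact_mod_cast rw2_card C e wd k₀ hl he
  have hq : (0 : ℝ) < (Fintype.card S : ℝ) ^ k₀ := lt_of_lt_of_le hM4 hcard
  have hδ0 : 0 < (C.M : ℝ) ^ 4 / 2 / (Fintype.card S : ℝ) ^ k₀ := by positivity
  have hδ1 : (C.M : ℝ) ^ 4 / 2 / (Fintype.card S : ℝ) ^ k₀ < 1 := by
    rw [div_lt_one hq]
    linarith
  obtain ⟨κ, k1, k2, k3⟩ := rw2_pow (1 - (C.M : ℝ) ^ 4 / 2 / (Fintype.card S : ℝ) ^ k₀)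
    (by linarith) (by linarith) k₀ hk
  set ρ : ℝ := 1 - (C.M : ℝ) ^ 4 / 2 / (Fintype.card S : ℝ) ^ k₀ with hρdef
  have hρ : (0 : ℝ) < ρ := by linarith
  have hlogκ : Real.log κ < 0 := Real.log_neg k1 k2
  have hlogM : 0 < Real.log (C.M : ℝ) := Real.log_pos (by linarith)
  refine ⟨-Real.log κ / (2 * Real.log (C.M : ℝ)), Real.exp (Real.log κ / 2), ρ⁻¹, ?_,
    Real.exp_pos _, ?_, by positivity, ?_⟩
  · apply div_pos
    · linarith
    · linarith
  · rw [Real.exp_lt_one_iff]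
    linarith
  intro r
  set c : ℝ := -Real.log κ / (2 * Real.log (C.M : ℝ)) with hcdef
  have hc : c * Real.log (C.M : ℝ) = -(Real.log κ / 2) := by
    rw [hcdef]
    field_simp
  have h3 := h1 e wd k₀ (fun g => (1 / (C.M : ℝ)) ^ (C.d C.o (g • C.o))) 1 hk hl he zero_le_one
    (fun g => by positivity) (fun w m => by rw [one_mul]; exact h2 w m) r
  have hpt : ∀ z : List S, z.length = r →
      (if (C.d C.o (GWP.ev e z • C.o) : ℝ) < c * r then (1 : ℝ) else 0) ≤
      Real.exp (-(Real.log κ / 2) * r) *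
        (1 / (C.M : ℝ)) ^ (C.d C.o (GWP.ev e z • C.o)) := by
    intro z _
    split_ifs with h
    · have e1 : (1 / (C.M : ℝ)) ^ (C.d C.o (GWP.ev e z • C.o)) =
          Real.exp (-((C.d C.o (GWP.ev e z • C.o) : ℝ) * Real.log (C.M : ℝ))) := by
        rw [Real.exp_neg, Real.exp_nat_mul, Real.exp_log hM0, one_div, inv_pow]
      rw [e1, ← Real.exp_add]
      rw [Real.one_le_exp_iff]
      have h4 := mul_lt_mul_of_pos_right h hlogM
      have h5 : c * (r : ℝ) * Real.log (C.M : ℝ) = -(Real.log κ / 2) * r := by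
        rw [← hc]
        ring
      linarith
    · positivity
  have h6 := GWP.wsum_le r _ _ hpt
  rw [GWP.wsum_mul] at h6
  refine le_trans h6 ?_
  have h7 := k3 r
  have hcr : (0 : ℝ) ≤ (Fintype.card S : ℝ) ^ r := by positivity
  have h8 : GWP.wsum r (fun z : List S => (1 / (C.M : ℝ)) ^ (C.d C.o (GWP.ev e z • C.o))) ≤
      (Fintype.card S : ℝ) ^ r * (ρ⁻¹ * κ ^ r) := by
    refine le_trans h3 ?_
    rw [one_mul]
    exact mul_le_mul_of_nonneg_left h7 hcr
  have hexp : (0 : ℝ) ≤ Real.exp (-(Real.log κ / 2) * r) := (Real.exp_pos _).le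
  refine le_trans (mul_le_mul_of_nonneg_left h8 hexp) (le_of_eq ?_)
  have e2 : Real.exp (-(Real.log κ / 2) * r) * κ ^ r = Real.exp (Real.log κ / 2) ^ r := by
    have e3 : κ ^ r = Real.exp ((r : ℝ) * Real.log κ) := by
      rw [Real.exp_nat_mul, Real.exp_log k1]
    rw [e3, ← Real.exp_add, ← Real.exp_nat_mul]
    congr 1
    ring
  rw [← e2]
  ring

end GWT
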